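import Pool.Agent.W_1502ea_h54.Main

/-!
# Dynamical Mordell-Lang for curves in the projective plane up to sets with doubling gaps
(MP_1502ea_ag)

The data are those of the frozen statement S00041 with `2 ≤ d`.
-/

set_option autoImplicit false

namespace Pool.Agent.Results.MP_1502ea_ag.DoublingGaps

theorem result (d : ℕ) (hd : 2 ≤ d) (f : Fin 3 → MvPolynomial (Fin 3) ℂ)
    (hf : ∀ i, (f i).IsHomogeneous d)
    (h0 : ∀ v : Fin 3 → ℂ, (∀ i, MvPolynomial.eval v (f i) = 0) → v = 0)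
    (m : ℕ) (F : MvPolynomial (Fin 3) ℂ) (hF : F.IsHomogeneous m) (hF0 : F ≠ 0)
    (x : Fin 3 → ℂ) (hx : x ≠ 0) :
    ∃ (T : Finset (ℕ × ℕ)) (k C : ℕ) (G : Fin k → Set ℕ),
      {n : ℕ | MvPolynomial.eval
          ((fun v : Fin 3 → ℂ => fun i => MvPolynomial.eval v (f i))^[n] x) F = 0}
        = (⋃ p ∈ T, {n : ℕ | ∃ l : ℕ, n = p.1 + l * p.2}) ∪ ⋃ i, G i ∧
      (∀ i, ∀ n ∈ G i, ∀ n' ∈ G i, n < n' → 2 * n ≤ n' + C) ∧
      ∀ N : ℕ, ((⋃ i, G i) ∩ Set.Iic N).ncard ≤ C * (1 + Nat.log 2 N) :=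
  Pool.Agent.W_1502ea_h54.main d hd f hf h0 m F hF hF0 x hx

end Pool.Agent.Results.MP_1502ea_ag.DoublingGaps
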